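import Pool.Agent.R39.PCG.Cog

/-!
For every `k ≥ 1` none of the classes `k`-interval-PCG, OR-`k`-PCG and AND-`k`-PCG is closed
under complement.

The definitions (`WTree`, `WTree.d`, `IsInterval`, `IsIntervalPCG`, `IsOrPCG`, `IsAndPCG`) are in
`Pool/Agent/R39/PCG/Defs.lean`.
-/

namespace Pool.Agent.Results.MP_f2fe1e_co.NoClassClosed

open Pool.Agent.R39.PCG

/-- For every `k ≥ 1`, each of the three classes contains a finite graph whose complement is not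
in the class. -/
theorem result : ∀ k : ℕ, 1 ≤ k →
    (∃ (V : Type) (_ : Finite V) (G : SimpleGraph V),
      IsIntervalPCG k G ∧ ¬ IsIntervalPCG k Gᶜ) ∧
    (∃ (V : Type) (_ : Finite V) (G : SimpleGraph V), IsOrPCG k G ∧ ¬ IsOrPCG k Gᶜ) ∧
    (∃ (V : Type) (_ : Finite V) (G : SimpleGraph V), IsAndPCG k G ∧ ¬ IsAndPCG k Gᶜ) := by
  intro k hk
  obtain ⟨N, _, h1, h2⟩ := or_not_closed k
  obtain ⟨M, _, h3, h4⟩ := and_not_closed k
  exact ⟨⟨Tr N (2 * k + 1), instFiniteTr N _, cog N (2 * k + 1), h1, fun h => h2 h.isOrPCG⟩,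
    ⟨Tr N (2 * k + 1), instFiniteTr N _, cog N (2 * k + 1), h1.isOrPCG, h2⟩,
    ⟨Tr M 3, instFiniteTr M 3, cog M 3, h3.isAndPCG hk, h4⟩⟩

end Pool.Agent.Results.MP_f2fe1e_co.NoClassClosed
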